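import Pool.Agent.Helper64.VN.SIEB
import Pool.Agent.Helper19.PM.Goals

/-!
# Packet T3-SIEW (project T3, P1M, MP_a41896_nt): the conditions can be solved, moving centres

Adapted from `Pool/Agent/Helper64/VN/SIEB.lean`; the constants `d j`, `G j` of the block `j` are slow.
-/

set_option autoImplicit false

open MvPolynomial

namespace Pool.Agent.Helper34.PM

open WeierstrassCurve Height NumberField
open Pool.Agent.Helper29.BL Pool.Agent.Helper92.Ru Pool.Agent.Helper42.SG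
open Pool.Agent.Helper77.SGC (N0)
open Pool.Agent.Helper68.VN hiding xs Good nz
open Pool.Agent.Helper64.VN
open Pool.Agent.Helper19.PM

noncomputable section

section entry

variable {K : Type} [Field K] {σ : Type} [Fintype σ] [DecidableEq σ]
variable {W : σ → Affine K} {B : AbsoluteValue K ℝ → ℝ} {D M : ℕ}
  {S : σ → ℕ → Bool → Fin 2 → ℕ → ℕ → ℕ → ℕ → K}

/-- the bound at one place, with the slow constants apart. -/
lemma bd_gamW (hS : ArS W B D M S) (hB : ∀ v, 1 ≤ B v) (g0 : AbsoluteValue K ℝ → ℝ)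
    (hg0 : ∀ v, 1 ≤ g0 v) (d e : ℕ) (hD : 0 < D) (hd : 0 < d) (r : (σ → ℕ) → K)
    (hr : ∀ v s, v (r s) ≤ g0 v ^ (N0 M e + 1)) (l : σ → Bool) (μ : σ → Fin 2)
    (g : σ → ℕ) (x : Ax σ M e) (v : AbsoluteValue K ℝ) :
    v (den K σ D d M e * Gam S M e r l μ g x) ≤
      ((2 : ℝ) ^ Fintype.card σ * (D * B v)) ^
        (4 ^ e * ((2 * M + 2) * (Fintype.card σ + 1))) *
          ((d : ℝ) ^ 4 ^ e * g0 v ^ 4 ^ e) ^ (2 * M + 2) := by
  have hDr : (1 : ℝ) ≤ D := by exact_mod_cast hD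
  have hdr : (1 : ℝ) ≤ d := by exact_mod_cast hd
  have hBv := hB v
  have hBv' := hg0 v
  set m := Fintype.card σ with hm
  have h2 : (1 : ℝ) ≤ (2 : ℝ) ^ m := one_le_pow₀ (by norm_num)
  have hdB : (1 : ℝ) ≤ d * g0 v := one_le_mul_of_one_le_of_one_le hdr hBv'
  have hDB : (1 : ℝ) ≤ D * B v := one_le_mul_of_one_le_of_one_le hDr hBv
  rw [den_gam]
  have hterm : ∀ s ∈ box σ (N0 M e), v (((d : K) ^ (N0 M e + 1) * r s) *
        ∏ i, ((D : K) ^ (4 ^ e * (M + 1)) *
          S i e (l i) (μ i) (s i) (g i) (x i).1.val (x i).2.val)) ≤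
      (d * g0 v) ^ (N0 M e + 1) * ((D * B v) ^ (4 ^ e * (M + 1))) ^ m := by
    intro s _
    rw [v.map_mul, v.map_mul, v.map_pow, map_prod]
    refine mul_le_mul ?_ ?_ (Finset.prod_nonneg fun _ _ => v.nonneg _) (by positivity)
    · rw [mul_pow]
      exact mul_le_mul (pow_le_pow_left₀ (v.nonneg _) (v_nat v _) _) (hr v s) (v.nonneg _)
        (by positivity)
    · rw [hm, ← Finset.card_univ, ← Finset.prod_const]
      refine Finset.prod_le_prod (fun _ _ => v.nonneg _) fun i _ => ?_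
      rw [v.map_mul, v.map_pow, mul_pow]
      exact mul_le_mul (pow_le_pow_left₀ (v.nonneg _) (v_nat v _) _) (hS.bd _ _ _ _ _ _ _ _ v)
        (v.nonneg _) (by positivity)
  refine (v.sum_le _ _).trans ((Finset.sum_le_card_nsmul _ _ _ hterm).trans ?_)
  rw [nsmul_eq_mul, card_box, ← hm]
  push_cast
  have hN := N0_le M e
  set k := 4 ^ e * ((2 * M + 2) * (m + 1)) with hk
  have hk1 : N0 M e + 1 ≤ k := by
    refine hN.trans ?_
    rw [hk]
    exact Nat.mul_le_mul_left _ (Nat.le_mul_of_pos_right _ (by omega))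
  have hk2 : 4 ^ e * (M + 1) * m ≤ k := by
    rw [hk, mul_assoc]
    refine Nat.mul_le_mul_left _ ?_
    exact Nat.mul_le_mul (by omega) (by omega)
  have h5 : ((N0 M e : ℝ) + 1) ^ m ≤ ((2 : ℝ) ^ m) ^ k := by
    rw [← pow_mul, mul_comm, pow_mul]
    refine pow_le_pow_left₀ (by positivity) ?_ _
    have h6 : ((N0 M e + 1 : ℕ) : ℝ) ≤ (2 : ℝ) ^ (N0 M e + 1) := by
      have := (Nat.lt_two_pow_self (n := N0 M e + 1)).le
      exact_mod_cast this
    push_cast at h6
    exact h6.trans (pow_le_pow_right₀ (by norm_num) hk1)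
  have h7 : (d * g0 v) ^ (N0 M e + 1) ≤ ((d : ℝ) ^ 4 ^ e * g0 v ^ 4 ^ e) ^ (2 * M + 2) := by
    rw [← mul_pow, ← pow_mul]
    exact pow_le_pow_right₀ hdB hN
  have h8 : ((D * B v) ^ (4 ^ e * (M + 1))) ^ m ≤ (D * B v) ^ k := by
    rw [← pow_mul]
    exact pow_le_pow_right₀ hDB hk2
  have h9 : ((2 : ℝ) ^ m * (D * B v)) ^ k * ((d : ℝ) ^ 4 ^ e * g0 v ^ 4 ^ e) ^ (2 * M + 2) =
      ((2 : ℝ) ^ m) ^ k * (((d : ℝ) ^ 4 ^ e * g0 v ^ 4 ^ e) ^ (2 * M + 2) * (D * B v) ^ k) := by
    rw [mul_pow ((2 : ℝ) ^ m)]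
    ring
  rw [h9]
  exact mul_le_mul h5 (mul_le_mul h7 h8 (by positivity) (by positivity)) (by positivity)
    (by positivity)

/-- the bound of the house of an entry. -/
lemma house_gamW [NumberField K] (hS : ArS W B D M S) (hB : ∀ v, 1 ≤ B v)
    (g0 : AbsoluteValue K ℝ → ℝ)
    (hg0 : ∀ v, 1 ≤ g0 v) (d e : ℕ) (hD : 0 < D) (hd : 0 < d) (r : (σ → ℕ) → K)
    (hr : ∀ v s, v (r s) ≤ g0 v ^ (N0 M e + 1)) (b0 L : ℝ)
    (hb0 : ∀ φ : K →+* ℂ, (2 : ℝ) ^ Fintype.card σ * (D * B (place φ)) ≤ b0)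
    (hL1 : (d : ℝ) ^ (4 ^ e) ≤ Real.exp L)
    (hL2 : ∀ φ : K →+* ℂ, g0 (place φ) ^ (4 ^ e) ≤ Real.exp L) (l : σ → Bool) (μ : σ → Fin 2)
    (g : σ → ℕ) (x : Ax σ M e) :
    house (den K σ D d M e * Gam S M e r l μ g x) ≤
      b0 ^ (4 ^ e * ((2 * M + 2) * (Fintype.card σ + 1))) * Real.exp ((4 * M + 4) * L) := by
  have hDr : (1 : ℝ) ≤ D := by exact_mod_cast hD
  have hdr : (1 : ℝ) ≤ d := by exact_mod_cast hd
  have hne : Nonempty (K →+* ℂ) := inferInstance
  have hb0' : 0 ≤ b0 := by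
    obtain ⟨φ⟩ := hne
    refine le_trans ?_ (hb0 φ)
    have := hB (place φ)
    positivity
  have hpos : 0 ≤ b0 ^ (4 ^ e * ((2 * M + 2) * (Fintype.card σ + 1))) *
      Real.exp ((4 * M + 4) * L) := by positivity
  show ‖NumberField.canonicalEmbedding K _‖ ≤ _
  rw [pi_norm_le_iff_of_nonneg hpos]
  intro φ
  have h1 : ‖NumberField.canonicalEmbedding K (den K σ D d M e * Gam S M e r l μ g x) φ‖ =
    NumberField.place φ (den K σ D d M e * Gam S M e r l μ g x) := rfl
  rw [h1]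
  refine (bd_gamW hS hB g0 hg0 d e hD hd r hr l μ g x (place φ)).trans ?_
  have hBφ := hB (place φ)
  have hgφ := hg0 (place φ)
  refine mul_le_mul (pow_le_pow_left₀ (by positivity) (hb0 φ) _) ?_ (by positivity)
    (by positivity)
  have h3 : Real.exp ((4 * M + 4) * L) = (Real.exp L * Real.exp L) ^ (2 * M + 2) := by
    rw [← Real.exp_add, ← Real.exp_nat_mul]
    congr 1
    push_cast
    ring
  rw [h3]
  exact pow_le_pow_left₀ (by positivity)
    (mul_le_mul hL1 (hL2 φ) (by positivity) (Real.exp_pos _).le) _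

open Classical in
/-- the Siegel matrix over `K`. -/
def entW (D : ℕ) (M : ℕ) (S : σ → ℕ → Bool → Fin 2 → ℕ → ℕ → ℕ → ℕ → K) {n δ k0 : ℕ}
    (d : Fin n → ℕ) {e : Fin n → ℕ}
    {T : Fin n → Type} {gr : ∀ j, T j → ℕ} (r : ∀ j, T j → (σ → ℕ) → K) {U : Type}
    (ν : U → (σ → ℕ) → K) (w : RowsB σ n M k0 e T gr U) (u : Ix σ n M δ e) : K :=
  if (∀ h : {h : Fin n // h ≠ w.1}, u.1 h.val = w.2.1 h) then
    ent D (d w.1) M (e w.1) S (r w.1 w.2.2.2.2.1.val) w.2.2.1 w.2.2.2.1 (ν w.2.2.2.2.2)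
      (u.1 w.1) u.2
  else 0

end entry

theorem t_SIEW (h1 : CARDB) : Pool.Agent.Helper19.PM.SIEW := by
  intro K _ _ σ _ _ W B D c hB hD n M δ k0 p S0 hn hδ hp hcount
  classical
  set m := Fintype.card σ with hm
  obtain ⟨c1, hc1, hSi⟩ := Pool.Agent.Helper68.Ru.siegel K
  have hDr : (1 : ℝ) ≤ (D : ℝ) := by exact_mod_cast hD
  set b0 : ℝ := ∑ φ : K →+* ℂ, (2 : ℝ) ^ Fintype.card σ * (D * B (place φ)) with hb0def
  have hterm1 : ∀ φ : K →+* ℂ, 1 ≤ (2 : ℝ) ^ Fintype.card σ * (D * B (place φ)) := fun φ =>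
    one_le_mul_of_one_le_of_one_le (one_le_pow₀ (by norm_num))
      (one_le_mul_of_one_le_of_one_le hDr (hB _))
  have hbφ : ∀ φ : K →+* ℂ, (2 : ℝ) ^ Fintype.card σ * (D * B (place φ)) ≤ b0 := fun φ =>
    Finset.single_le_sum
      (f := fun φ : K →+* ℂ => (2 : ℝ) ^ Fintype.card σ * (D * B (place φ)))
      (fun φ _ => zero_le_one.trans (hterm1 φ)) (Finset.mem_univ φ)
  have hb0 : 1 ≤ b0 := by
    obtain ⟨φ⟩ : Nonempty (K →+* ℂ) := inferInstance
    exact (hterm1 φ).trans (hbφ φ)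
  set κ : ℕ := (2 * M + 2) * (m + 1) with hκ
  set G0 : ℝ := ((2 * M + 1 : ℕ) : ℝ) ^ m with hG
  have hG1 : 1 ≤ G0 := one_le_pow₀ (by push_cast; linarith [Nat.cast_nonneg (α := ℝ) M])
  set Q : ℝ := c1 * c1 * (((M : ℝ) + 1) ^ (n * m) * (δ : ℝ) ^ m) * G0 with hQ
  have hδr : (1 : ℝ) ≤ δ := by exact_mod_cast hδ
  have hM1 : (1 : ℝ) ≤ (M : ℝ) + 1 := by linarith [Nat.cast_nonneg (α := ℝ) M]
  have hQ1 : 1 ≤ Q := one_le_mul_of_one_le_of_one_le
    (one_le_mul_of_one_le_of_one_le (one_le_mul_of_one_le_of_one_le hc1 hc1)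
      (one_le_mul_of_one_le_of_one_le (one_le_pow₀ hM1) (one_le_pow₀ hδr))) hG1
  have hlQ := Real.log_nonneg hQ1
  have hlb := Real.log_nonneg hb0
  refine ⟨Real.log Q + n * m + κ * Real.log b0 + (4 * M + 4), by positivity, ?_⟩
  intro e d G L S T _ gr E r U _ ν x0 H hsl hL0 hS hcen hU hH0 hred
  have hg0 : ∀ j v, 1 ≤ G j v := fun j v => (hsl.plc j).one_le v
  have hsq : 1 ≤ sqB e :=
    (Nat.one_le_pow _ _ (by norm_num)).trans (sq_ge e (⟨0, hn⟩ : Fin n))
  have hsqr : (1 : ℝ) ≤ (sqB e : ℝ) := by exact_mod_cast hsq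
  -- integrality
  have hint : ∀ (w : RowsB σ n M k0 e T gr U) (u : Ix σ n M δ e),
      IsIntegral ℤ (entW D M S d r ν w u) := by
    intro w u
    unfold entW
    split_ifs
    · unfold ent
      refine IsIntegral.sum _ fun g _ => IsIntegral.mul ?_ (hred.int _ _)
      exact int_gam hS (d w.1) (e w.1) _ (fun s => (hcen w.1).int _ s) _ _ _ _
    · exact isIntegral_zero
  -- the matrix
  set a : Matrix (RowsB σ n M k0 e T gr U) (Ix σ n M δ e) (𝓞 K) :=
    fun w u => ⟨entW D M S d r ν w u, hint w u⟩ with ha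
  have hacoe : ∀ w u, ((a w u : 𝓞 K) : K) = entW D M S d r ν w u := fun w u => rfl
  have hE1 : (1 : ℝ) ≤ Real.exp ((4 * M + 4) * L) := Real.one_le_exp (by positivity)
  have hA1 : (1 : ℝ) ≤ G0 * (b0 ^ (κ * sqB e) * Real.exp ((4 * M + 4) * L)) * Real.exp H :=
    one_le_mul_of_one_le_of_one_le (one_le_mul_of_one_le_of_one_le hG1
      (one_le_mul_of_one_le_of_one_le (one_le_pow₀ hb0) hE1)) (Real.one_le_exp hH0)
  have hhouse : ∀ w u, house ((a w u : 𝓞 K) : K) ≤
      G0 * (b0 ^ (κ * sqB e) * Real.exp ((4 * M + 4) * L)) * Real.exp H := by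
    intro w u
    rw [hacoe]
    unfold entW
    split_ifs
    · unfold ent
      refine (house_sum_le_sum_house _ _).trans ?_
      have hterm : ∀ g ∈ box σ (2 * M), house ((den K σ D (d w.1) M (e w.1) *
          Gam S M (e w.1) (r w.1 w.2.2.2.2.1.val) w.2.2.1 w.2.2.2.1 g (u.1 w.1)) *
          ν w.2.2.2.2.2 (fun i => g i + (u.2 i).val)) ≤
          (b0 ^ (κ * sqB e) * Real.exp ((4 * M + 4) * L)) * Real.exp H := by
        intro g _
        refine (house_mul_le _ _).trans (mul_le_mul ?_ (hred.hs _ _) (house_nonneg _)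
          (by positivity))
        refine (house_gamW hS hB (G w.1) (hg0 w.1) (d w.1) (e w.1) hD (hsl.pos w.1) _
          (fun v s => (hcen w.1).bd v _ s) b0 L hbφ (hsl.den w.1) (hsl.arch w.1) _ _ _ _).trans
          ?_
        refine mul_le_mul_of_nonneg_right (pow_le_pow_right₀ hb0 ?_) (Real.exp_pos _).le
        rw [mul_comm, hκ, hm]
        exact Nat.mul_le_mul_left _ (sq_ge e w.1)
      refine (Finset.sum_le_card_nsmul _ _ _ hterm).trans ?_
      rw [nsmul_eq_mul, card_box, ← hm, hG]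
      push_cast
      exact le_of_eq (by ring)
    · exact (Pool.Agent.Helper68.Ru.house_zero' K).trans (by linarith)
  have hne : Nonempty (Ix σ n M δ e) :=
    ⟨fun h => fun _ => (⟨0, by positivity⟩, ⟨0, by omega⟩), fun _ => ⟨0, by omega⟩⟩
  have hcd := h1 σ n M δ k0 p c S0 e T gr U hp (fun j => by
    have h3 := (hcen j).bad (k0 * 4 ^ e j)
    exact h3) hU hcount
  rw [Nat.card_eq_fintype_card, Nat.card_eq_fintype_card] at hcd
  obtain ⟨ξ, hξ0, hξ, hξb⟩ := hSi (RowsB σ n M k0 e T gr U) (Ix σ n M δ e) a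
    (G0 * (b0 ^ (κ * sqB e) * Real.exp ((4 * M + 4) * L)) * Real.exp H) hA1 hcd
    (Fintype.card_pos_iff.2 hne) hhouse
  refine ⟨fun α => ((ξ α : 𝓞 K) : K), ?_, fun α => RingOfIntegers.isIntegral_coe _, ?_, ?_⟩
  · intro h
    apply hξ0
    funext α
    have h3 := congrFun h α
    exact RingOfIntegers.coe_eq_zero_iff.1 h3
  · intro α
    refine (hξb α).trans ?_
    -- the number of unknowns
    have hcard : (Fintype.card (Ix σ n M δ e) : ℝ) ≤
        Real.exp (n * m * sqB e) * (((M : ℝ) + 1) ^ (n * m) * (δ : ℝ) ^ m) := by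
      have h3 : Fintype.card (Ix σ n M δ e) =
          (∏ h : Fin n, (4 ^ e h * (M + 1)) ^ m) * δ ^ m := by
        rw [Fintype.card_prod, Fintype.card_pi, Fintype.card_fun, Fintype.card_fin]
        congr 1
        refine Finset.prod_congr rfl fun h _ => ?_
        rw [Fintype.card_fun, Fintype.card_prod, Fintype.card_fin, Fintype.card_fin]
      rw [h3]
      push_cast
      simp only [mul_pow]
      rw [Finset.prod_mul_distrib, Finset.prod_const, Finset.card_univ, Fintype.card_fin,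
        ← pow_mul, mul_comm m n]
      have h4 : ∏ h : Fin n, ((4 : ℝ) ^ e h) ^ m ≤
          ∏ _h : Fin n, (Real.exp (sqB e)) ^ m := by
        refine Finset.prod_le_prod (fun _ _ => by positivity) fun h _ => ?_
        refine pow_le_pow_left₀ (by positivity) ?_ _
        have h6 : (4 : ℝ) ^ e h ≤ (sqB e : ℝ) := by exact_mod_cast sq_ge e h
        have h7 := Real.add_one_le_exp (sqB e : ℝ)
        linarith
      rw [Finset.prod_const, Finset.card_univ, Fintype.card_fin, ← pow_mul, ← Real.exp_nat_mul]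
        at h4
      have h8 : (((m * n : ℕ) : ℝ) * (sqB e : ℝ)) = (n : ℝ) * m * sqB e := by
        push_cast; ring
      rw [h8] at h4
      rw [mul_assoc]
      exact mul_le_mul_of_nonneg_right h4 (by positivity)
    have hb : b0 ^ (κ * sqB e) = Real.exp (κ * Real.log b0 * sqB e) := by
      rw [← Real.exp_log (show (0 : ℝ) < b0 by linarith), ← Real.exp_nat_mul, Real.exp_log
        (show (0 : ℝ) < b0 by linarith)]
      congr 1
      push_cast
      ring
    have hQe : Q ≤ Real.exp (Real.log Q * sqB e) := by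
      calc Q = Real.exp (Real.log Q * 1) := by
            rw [mul_one, Real.exp_log (by linarith)]
        _ ≤ Real.exp (Real.log Q * sqB e) :=
            Real.exp_le_exp.2 (mul_le_mul_of_nonneg_left hsqr hlQ)
    calc c1 * (c1 * (Fintype.card (Ix σ n M δ e) : ℝ) *
          (G0 * (b0 ^ (κ * sqB e) * Real.exp ((4 * M + 4) * L)) * Real.exp H))
        ≤ c1 * (c1 * (Real.exp (n * m * sqB e) * (((M : ℝ) + 1) ^ (n * m) * (δ : ℝ) ^ m)) *
            (G0 * (b0 ^ (κ * sqB e) * Real.exp ((4 * M + 4) * L)) * Real.exp H)) := by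
          have : 0 ≤ c1 := by linarith
          have : 0 ≤ G0 := by linarith
          gcongr
      _ = Q * (Real.exp (n * m * sqB e) * b0 ^ (κ * sqB e) * Real.exp ((4 * M + 4) * L) *
            Real.exp H) := by
          rw [hQ]
          ring
      _ ≤ Real.exp (Real.log Q * sqB e) *
            (Real.exp (n * m * sqB e) * b0 ^ (κ * sqB e) * Real.exp ((4 * M + 4) * L) *
              Real.exp H) :=
          mul_le_mul_of_nonneg_right hQe (by positivity)
      _ = Real.exp ((Real.log Q + n * m + κ * Real.log b0) * sqB e + (4 * M + 4) * L + H) := by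
          rw [hb, ← Real.exp_add, ← Real.exp_add, ← Real.exp_add, ← Real.exp_add]
          congr 1
          ring
      _ ≤ Real.exp ((Real.log Q + n * m + κ * Real.log b0 + (4 * M + 4)) *
            (sqB e + H + L)) := by
          refine Real.exp_le_exp.2 ?_
          have h9 : 0 ≤ Real.log Q + n * m + κ * Real.log b0 := by positivity
          have hMr : (0 : ℝ) ≤ M := Nat.cast_nonneg M
          nlinarith [mul_nonneg h9 hH0, mul_nonneg h9 hL0, mul_nonneg hMr hH0,
            mul_nonneg hMr (zero_le_one.trans hsqr)]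
  · -- the conditions
    intro j α0 l μ t hbad u
    set w : RowsB σ n M k0 e T gr U :=
      ⟨j, (fun j' => α0 j'.val), l, μ, ⟨t, hbad⟩, u⟩ with hw
    have hrow := congrFun hξ w
    have hK := congrArg (algebraMap (𝓞 K) K) hrow
    rw [Matrix.mulVec, dotProduct, map_sum] at hK
    have hK2 : ∑ y : Ix σ n M δ e, (if (∀ h : {h : Fin n // h ≠ j}, y.1 h.val = α0 h.val) then
        ent D (d j) M (e j) S (r j t) l μ (ν u) (y.1 j) y.2 * ((ξ y : 𝓞 K) : K) else 0) = 0 := by
      refine Eq.trans (Finset.sum_congr rfl fun y _ => ?_) (hK.trans (map_zero _))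
      rw [map_mul]
      show _ = entW D M S d r ν w y * ((ξ y : 𝓞 K) : K)
      unfold entW
      by_cases h3 : ∀ h : {h : Fin n // h ≠ j}, y.1 h.val = α0 h.val
      · rw [if_pos h3, if_pos h3]
      · rw [if_neg h3, if_neg h3, zero_mul]
    rw [Fintype.sum_prod_type] at hK2
    have hK3 : ∑ α : ∀ h, Ax σ M (e h), (if (∀ h : {h : Fin n // h ≠ j}, α h.val = α0 h.val) then
        ∑ β : σ → Fin δ, ent D (d j) M (e j) S (r j t) l μ (ν u) (α j) β *
          ((ξ (α, β) : 𝓞 K) : K) else 0) = 0 := by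
      refine Eq.trans (Finset.sum_congr rfl fun α _ => ?_) hK2
      by_cases h3 : ∀ h : {h : Fin n // h ≠ j}, α h.val = α0 h.val
      · rw [if_pos h3]
        refine Finset.sum_congr rfl fun β _ => ?_
        exact (if_pos h3).symm
      · rw [if_neg h3]
        symm
        refine Finset.sum_eq_zero fun β _ => ?_
        exact if_neg h3
    have hK4 := sum_blk1 (fun h => Ax σ M (e h)) j α0 (fun α =>
      ∑ β : σ → Fin δ, ent D (d j) M (e j) S (r j t) l μ (ν u) (α j) β *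
          ((ξ (α, β) : 𝓞 K) : K))
    have hK5 := hK4.symm.trans hK3
    have hE : den K σ D (d j) M (e j) ≠ 0 := den_ne D (d j) M (e j) hD (hsl.pos j)
    refine (mul_eq_zero.1 (Eq.trans ?_ hK5)).resolve_left hE
    rw [Finset.mul_sum]
    refine Finset.sum_congr rfl fun x _ => ?_
    rw [Finset.mul_sum]
    refine Finset.sum_congr rfl fun β _ => ?_
    rw [Function.update_self]
    unfold ent
    rw [Finset.mul_sum, Finset.mul_sum, Finset.sum_mul]
    refine Finset.sum_congr rfl fun g _ => ?_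
    ring

end

end Pool.Agent.Helper34.PM
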